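import Pool.Agent.Helper97.Ku.GoalsC

/-! All captured functions are listed by one function. -/

namespace Pool.Agent.Helper97.Ku.PkList

open Set

theorem mem_eqB {a b : BA} {p : Cond} : p ∈ eqB a b ↔ ∀ u, u ≤ p → (u ∈ a ↔ u ∈ b) := by
  unfold eqB
  rw [RO.mem_inf, RO.mem_himp, RO.mem_himp]
  constructor
  · rintro ⟨h1, h2⟩ u hu
    exact ⟨h1 u hu, h2 u hu⟩
  · intro h
    exact ⟨fun u hu => (h u hu).1, fun u hu => (h u hu).2⟩

theorem list : G_PDS → G_LL → G_FNOF → G_LIST := by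
  intro hPDS hLL hFN G D0 hD0
  have hs1 : Small.{0} {d : Cond // d.supp ⊆ D0} := hPDS D0 hD0
  have hs2 : Small.{0} Om := inferInstance
  have hs3 : Small.{0} (Om × Om → Set {d : Cond // d.supp ⊆ D0}) := inferInstance
  obtain ⟨Lx, hL⟩ := hLL (Om × Om → Set {d : Cond // d.supp ⊆ D0}) (Om × Om)
    (fun X k => RO.cl {w | ∃ d ∈ X k, w ≤ d.1}) hs3 ⟨fun _ => ∅⟩
  obtain ⟨z, hz⟩ := hFN (fun i m => Lx (G.pi.symm i).1 ((G.pi.symm i).2, m))
  refine ⟨z, fun b q hq => ?_⟩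
  set X : Om × Om → Set {d : Cond // d.supp ⊆ D0} :=
    fun k => {d | ∃ v, v ≤ q ∧ v ∈ b.v k.1 k.2 ∧ v.rs D0 = d.1} with hX
  have key : ∀ (k : Om × Om) (u : Cond), u ≤ q →
      (u ∈ RO.cl {w | ∃ d ∈ X k, w ≤ d.1} ↔ u ∈ b.v k.1 k.2) := by
    intro k u hu
    constructor
    · intro h
      by_contra hc
      obtain ⟨u1, hu1, hu1'⟩ := RO.not_mem_iff.mp hc
      obtain ⟨u2, hu2, d, ⟨v, hv, hvb, hvd⟩, hd⟩ := h u1 hu1
      have h1 : u2.rs D0 ≤ v.rs D0 := by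
        have h2 := Cond.rs_mono hd D0
        rw [← hvd, Cond.rs_rs_of_subset _ (subset_refl D0)] at h2
        exact h2
      have h3 : (u2.rs D0).supp ⊆ D0 := Cond.supp_rs_subset _ _
      have h4 : am v (u2.rs D0) (cmp_of_le h1 h3) ≤ v := am_le_left _
      have h5 : (am v (u2.rs D0) (cmp_of_le h1 h3)).rs D0 = u2.rs D0 := am_rs h1 h3
      exact hq k _ u2 (h4.trans hv) ((hu2.trans hu1).trans hu) h5 (RO.lower h4 hvb)
        (RO.lower hu2 hu1')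
    · intro h u' hu'
      exact ⟨u', le_rfl, ⟨u'.rs D0, Cond.supp_rs_subset _ _⟩,
        ⟨u', hu'.trans hu, RO.lower hu' h, rfl⟩, Cond.le_rs _ _⟩
  unfold lstV
  rw [RO.mem_iSup]
  intro w hw
  obtain ⟨w', hw', ν, hν⟩ := RO.mem_iSup.mp (hL X w) w le_rfl
  refine ⟨w', hw', ν, ?_⟩
  rw [RO.mem_iInf] at hν ⊢
  intro α
  rw [RO.mem_iInf]
  intro n
  have h1 : ∀ (m : Om) (u : Cond), u ≤ w' →
      (u ∈ Lx (G.pi.symm (G.pi (ν, α))).1 ((G.pi.symm (G.pi (ν, α))).2, m) ↔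
        u ∈ b.v α m) := by
    intro m u hu
    rw [G.pi.symm_apply_apply]
    exact (mem_eqB.mp (hν (α, m)) u hu).trans (key (α, m) u ((hu.trans hw').trans hw))
  have h2 := hz (G.pi (ν, α)) w' (by
    rw [RO.mem_iSup]
    intro q' hq'
    have h3 : q' ∈ ⨆ j, b.v α j := by rw [b.tot α]; exact RO.mem_top q'
    obtain ⟨r, hr, j, hj⟩ := RO.mem_iSup.mp h3 q' le_rfl
    exact ⟨r, hr, j, (h1 j r (hr.trans hq')).mpr hj⟩) (by
    intro j k hjk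
    rw [RO.mem_compl]
    rintro u hu ⟨h4, h5⟩
    have h6 : u ∈ b.v α j ⊓ b.v α k := ⟨(h1 j u hu).mp h4, (h1 k u hu).mp h5⟩
    rw [b.fn α j k hjk] at h6
    exact RO.not_mem_bot u h6) n
  rw [RO.mem_himp]
  intro u hu hu'
  exact (h1 n u hu).mp ((mem_eqB.mp h2 u hu).mpr hu')

end Pool.Agent.Helper97.Ku.PkList
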